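import Pool.Agent.H56.CF.Targets

/-!
# Row RSHR of the board `cfm_modules`: weighted sums of class numbers of real quadratic fields
-/

set_option autoImplicit false

open NumberField Module
open scoped nonZeroDivisors

namespace Pool.Agent.H60.CF

open Pool.Agent.H91.CF Pool.Agent.H28.RC Pool.Agent.H24.Cls Pool.Agent.H56.CF

theorem pf_SHR (hH : T_HRL) (hS : T_SAN) (hQ : T_SQD) : T_SHR := by
  intro K _ _ S Y hF hpos hY
  have hY0 : (0 : ℝ) < Y := by linarith
  have hsY : 0 < √Y := Real.sqrt_pos.2 hY0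
  set x : ℝ := 2 * √Y with hx
  have hx0 : 0 < x := by positivity
  have hterm : ∀ n ∈ Finset.Icc 1 ⌊x⌋₊, 0 ≤ Real.log (x / n) := by
    intro n hn
    rw [Finset.mem_Icc] at hn
    have h1 : (1 : ℝ) ≤ n := by exact_mod_cast hn.1
    have h2 : (n : ℝ) ≤ x := (Nat.le_floor_iff hx0.le).1 hn.2
    refine Real.log_nonneg ?_
    rw [le_div_iff₀ (by linarith)]
    linarith
  have hd : ∀ d ∈ S, (classNumber (K d) : ℝ) * (Real.log (√(d : ℝ) - 1) / 2) ≤
      ∑ n ∈ Finset.Icc 1 ⌊x⌋₊, (aK (K d) n : ℝ) * (Real.log (x / n) + 1) := by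
    intro d hdS
    obtain ⟨h1, h2, h3⟩ := hF d hdS
    have hdp : 0 < discr (K d) := by
      rw [h2]
      exact hpos d hdS
    have h4 := hH (K d) h1 hdp
    rw [h2] at h4
    have hd0 : (0 : ℝ) < d := by exact_mod_cast hpos d hdS
    have hdY : (d : ℝ) ≤ Y := (le_abs_self _).trans h3
    have hsq : √(d : ℝ) ≤ √Y := Real.sqrt_le_sqrt hdY
    have hsd : 0 < √(d : ℝ) := Real.sqrt_pos.2 hd0
    refine h4.trans ?_
    have hsub : Finset.Icc 1 ⌊2 * √(d : ℝ)⌋₊ ⊆ Finset.Icc 1 ⌊x⌋₊ := by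
      refine Finset.Icc_subset_Icc_right (Nat.floor_le_floor ?_)
      rw [hx]
      linarith
    refine le_trans (Finset.sum_le_sum fun n hn => ?_)
      (Finset.sum_le_sum_of_subset_of_nonneg hsub fun n hn _ => ?_)
    · rw [Finset.mem_Icc] at hn
      have hn1 : (1 : ℝ) ≤ n := by exact_mod_cast hn.1
      refine mul_le_mul_of_nonneg_left ?_ (Nat.cast_nonneg _)
      have h5 : Real.log (2 * √(d : ℝ) / n) ≤ Real.log (x / n) := by
        refine Real.log_le_log (by positivity) ?_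
        refine div_le_div_of_nonneg_right ?_ (by linarith)
        rw [hx]
        linarith
      linarith
    · have := hterm n hn
      positivity
  calc ∑ d ∈ S, (classNumber (K d) : ℝ) * (Real.log (√(d : ℝ) - 1) / 2)
      ≤ ∑ d ∈ S, ∑ n ∈ Finset.Icc 1 ⌊x⌋₊, (aK (K d) n : ℝ) * (Real.log (x / n) + 1) :=
        Finset.sum_le_sum hd
    _ = ∑ n ∈ Finset.Icc 1 ⌊x⌋₊, (∑ d ∈ S, (aK (K d) n : ℝ)) * (Real.log (x / n) + 1) := by
        rw [Finset.sum_comm]
        refine Finset.sum_congr rfl fun n _ => ?_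
        rw [Finset.sum_mul]
    _ ≤ ∑ n ∈ Finset.Icc 1 ⌊x⌋₊, (5 * Y * sqd n) * (Real.log (x / n) + 1) := by
        refine Finset.sum_le_sum fun n hn => ?_
        have h1 := hterm n hn
        rw [Finset.mem_Icc] at hn
        refine mul_le_mul_of_nonneg_right ?_ (by linarith)
        exact hS K S Y n hF hY hn.1 ((Nat.le_floor_iff hx0.le).1 hn.2)
    _ = 5 * Y * ∑ n ∈ Finset.Icc 1 ⌊x⌋₊, (sqd n : ℝ) * (Real.log (x / n) + 1) := by
        rw [Finset.mul_sum]
        refine Finset.sum_congr rfl fun n _ => ?_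
        ring
    _ ≤ 5 * Y * (4 * x) := mul_le_mul_of_nonneg_left (hQ x hx0) (by positivity)
    _ = 40 * Y ^ (3 / 2 : ℝ) := by
        have h1 : Y ^ (3 / 2 : ℝ) = Y * √Y := by
          rw [show (3 / 2 : ℝ) = 1 + 1 / 2 by norm_num, Real.rpow_add hY0, Real.rpow_one,
            Real.sqrt_eq_rpow]
        rw [h1, hx]
        ring

end Pool.Agent.H60.CF
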