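import Pool.Agent.H31.CF.U4
import Pool.Agent.H31.CF.U3

/-!
# Row UMNS of the board `cfm_modules`: the main terms
-/

set_option autoImplicit false

open MeasureTheory Set Filter
open scoped Real

namespace Pool.Agent.H60.CFU

open Pool.Agent.H31.CN Pool.Agent.H91.CF Pool.Agent.H31.CF

theorem pf_MNS (hWBS : T_WBS) (hNWS : T_NWS) : T_MNS := by
  intro q d s n m₁ m₂ K w Δ hq hd hs hdq hsn hn hw hcop hΔ
  have hd0 : (0 : ℝ) < d := by exact_mod_cast hd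
  have hs0 : (0 : ℝ) < s := by exact_mod_cast hs
  have hsΔ : 0 < Real.sqrt Δ := Real.sqrt_pos.2 hΔ
  have hsq : Real.sqrt ((d * s : ℝ) ^ 2 * Δ) = (d * s) * Real.sqrt Δ := by
    rw [Real.sqrt_mul (by positivity), Real.sqrt_sq (by positivity)]
  have hn' : (((d * (n / s) : ℕ)) : ℝ) * s = d * n := by
    obtain ⟨k, rfl⟩ := hsn
    rw [Nat.mul_div_cancel_left k (by omega)]
    push_cast
    ring
  have hdd : 0 < d ^ 2 := by positivity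
  unfold Mn Mng
  set T : ℕ × ℕ → ℝ := fun x : ℕ × ℕ =>
    Vk ((x.1 : ℝ) ^ 2 * x.2 / (((d * (n / s) : ℕ) : ℝ) * m₁ * m₂ *
      Real.sqrt ((d * s : ℝ) ^ 2 * Δ))) /
    Real.sqrt ((x.1 : ℝ) ^ 2 * x.2) * wbar ((d * s) ^ 2 * q) (ws d s w) x.1 x.2 *
      Nb m₁ m₂ x.2 x.1 * ct x.2 ((d * s : ℝ) ^ 2 * Δ) with hT
  set T0 : ℕ × ℕ → ℝ := fun x : ℕ × ℕ =>
    Vk ((x.1 : ℝ) ^ 2 * x.2 / ((n : ℝ) * m₁ * m₂ * Real.sqrt Δ)) /
    Real.sqrt ((x.1 : ℝ) ^ 2 * x.2) * wbd q d w x.1 x.2 * Nb m₁ m₂ x.2 x.1 *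
      ((Real.log (Real.sqrt Δ / x.2) + Real.log (((d * s : ℕ) : ℝ) / (d : ℝ) ^ 2) + c0) /
        Real.sqrt x.2) with hT0
  change (d : ℝ) * (d * s : ℝ) ^ 2 * ∑' x, T x = ∑' x, T0 x
  let g : ℕ × ℕ → ℕ × ℕ := fun x => (x.1, d ^ 2 * x.2)
  have hg : Function.Injective g := by
    rintro ⟨e, A⟩ ⟨e', A'⟩ h
    have h1 : e = e' := congrArg Prod.fst h
    have h2 : d ^ 2 * A = d ^ 2 * A' := congrArg Prod.snd h
    rw [h1, Nat.eq_of_mul_eq_mul_left hdd h2]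
  have hsup : Function.support T ⊆ Set.range g := by
    rintro ⟨e, A⟩ hx
    by_contra hcon
    apply hx
    have h1 : ¬ d ^ 2 ∣ A := by
      rintro ⟨A', rfl⟩
      exact hcon ⟨(e, A'), rfl⟩
    show Vk _ / _ * wbar ((d * s) ^ 2 * q) (ws d s w) e A * _ * _ = 0
    rw [hWBS q d s K w e A hq hd hs hdq hw, if_neg h1]
    simp
  rw [← hg.tsum_eq hsup, ← tsum_mul_left]
  refine tsum_congr fun x => ?_
  obtain ⟨e, A⟩ := x
  show (d : ℝ) * (d * s : ℝ) ^ 2 * T (e, d ^ 2 * A) = T0 (e, A)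
  rcases Nat.eq_zero_or_pos e with he | he
  · subst he
    simp only [hT, hT0]
    simp
  rcases Nat.eq_zero_or_pos A with hA | hA
  · subst hA
    simp only [hT, hT0]
    simp
  have hA0 : (0 : ℝ) < A := by exact_mod_cast hA
  have he0 : (0 : ℝ) < e := by exact_mod_cast he
  simp only [hT, hT0]
  rw [hWBS q d s K w e (d ^ 2 * A) hq hd hs hdq hw, if_pos (dvd_mul_right _ _),
    Nat.mul_div_cancel_left A hdd, ((hNWS m₁ m₂ A e 0 0 hA).1 d s hd hs hcop).2, hsq]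
  have e1 : (e : ℝ) ^ 2 * ((d ^ 2 * A : ℕ) : ℝ) / (((d * (n / s) : ℕ) : ℝ) * m₁ * m₂ *
      (d * s * Real.sqrt Δ)) = (e : ℝ) ^ 2 * A / ((n : ℝ) * m₁ * m₂ * Real.sqrt Δ) := by
    have e2 : ((d * (n / s) : ℕ) : ℝ) * m₁ * m₂ * (d * s * Real.sqrt Δ) =
        (d : ℝ) ^ 2 * ((n : ℝ) * m₁ * m₂ * Real.sqrt Δ) := by
      calc ((d * (n / s) : ℕ) : ℝ) * m₁ * m₂ * (d * s * Real.sqrt Δ)
          = (((d * (n / s) : ℕ) : ℝ) * s) * (m₁ * m₂ * d * Real.sqrt Δ) := by ring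
        _ = _ := by rw [hn']; ring
    rw [e2]
    push_cast
    rw [show (e : ℝ) ^ 2 * ((d : ℝ) ^ 2 * A) = (d : ℝ) ^ 2 * ((e : ℝ) ^ 2 * A) by ring,
      mul_div_mul_left _ _ (by positivity)]
  have e3 : Real.sqrt ((e : ℝ) ^ 2 * ((d ^ 2 * A : ℕ) : ℝ)) =
      d * Real.sqrt ((e : ℝ) ^ 2 * A) := by
    push_cast
    rw [show (e : ℝ) ^ 2 * ((d : ℝ) ^ 2 * A) = (d : ℝ) ^ 2 * ((e : ℝ) ^ 2 * A) by ring,
      Real.sqrt_mul (by positivity), Real.sqrt_sq (by positivity)]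
  have e4 : ct ((d ^ 2 * A : ℕ) : ℝ) ((d * s : ℝ) ^ 2 * Δ) =
      (Real.log (Real.sqrt Δ / A) + Real.log (((d * s : ℕ) : ℝ) / (d : ℝ) ^ 2) + c0) /
        (d * Real.sqrt A) := by
    unfold ct
    rw [hsq]
    have e5 : Real.sqrt ((d ^ 2 * A : ℕ) : ℝ) = d * Real.sqrt A := by
      push_cast
      rw [Real.sqrt_mul (by positivity), Real.sqrt_sq (by positivity)]
    have e6 : (d : ℝ) * s * Real.sqrt Δ / ((d ^ 2 * A : ℕ) : ℝ) =
        (Real.sqrt Δ / A) * (((d * s : ℕ) : ℝ) / (d : ℝ) ^ 2) := by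
      push_cast
      field_simp
    rw [e5, e6, Real.log_mul (by positivity) (by push_cast; positivity)]
  rw [e1, e3, e4]
  have hsA : 0 < Real.sqrt (A : ℝ) := Real.sqrt_pos.2 hA0
  have hse : 0 < Real.sqrt ((e : ℝ) ^ 2 * A) := Real.sqrt_pos.2 (by positivity)
  field_simp

end Pool.Agent.H60.CFU
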