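import Pool.Agent.H37.CF.Basic

/-!
# Row CINV of the board `cfm_modules`: inverse classes
-/

set_option autoImplicit false

open NumberField Pool.Agent.H31.CN Pool.Agent.H95.CF Pool.Agent.H28.RC Pool.Agent.H37.CF
open Pool.Agent.H91.CF (ch npt npD xit xiD pit piD TrQ NRe NVc RQ nn rr ww fmD Fu)
open Pool.Agent.H24.Cls (Quad)
open scoped nonZeroDivisors

namespace Pool.Agent.H60.CF

theorem pf_INV (hCOP : Pool.Agent.H37.CF.T_COP) : Pool.Agent.H37.CF.T_INV := by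
  intro K _ _ f I hf hI
  have hc : (Ideal.absNorm I).Coprime f := (hCOP K f I hI.1).1 hI.2
  have hN : 1 ≤ Ideal.absNorm I := by
    have h1 : Ideal.absNorm I ≠ 0 := fun h => hI.1 (Ideal.absNorm_eq_zero_iff.1 h)
    omega
  have hdvd : I ∣ Ideal.span {(Ideal.absNorm I : 𝓞 K)} := by
    rw [Ideal.dvd_span_singleton]
    exact Ideal.absNorm_mem I
  have hP : Pr K f (Ideal.span {(Ideal.absNorm I : 𝓞 K)}) := pr_nat hN hc
  obtain ⟨J, hJ⟩ := hdvd
  refine ⟨J, pr_of_dvd hP ⟨I, ?_⟩, hJ.symm, hc⟩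
  rw [hJ, mul_comm]

end Pool.Agent.H60.CF
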