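import Pool.Agent.H91.CF.TA

/-!
# Row ALU2 of the board `cfm_modules`: the local numbers of roots at `2`
-/

set_option autoImplicit false

open MeasureTheory Set Filter
open Pool.Agent.H31.CN Pool.Agent.H91.CF
open Pool.Agent.H96.CN (Av Per2)
open scoped Real

namespace Pool.Agent.H60.CF

/-- the number of roots depends only on the residues -/
theorem nrt_congr (q : ℕ) (A B C A' B' C' : ℤ) (hA : (q : ℤ) ∣ A - A') (hB : (q : ℤ) ∣ B - B')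
    (hC : (q : ℤ) ∣ C - C') : nrt q A B C = nrt q A' B' C' := by
  unfold nrt
  congr 1
  refine Finset.filter_congr fun j _ => ?_
  have h : (q : ℤ) ∣ (A * (j : ℤ) ^ 2 + B * (j : ℤ) + C) -
      (A' * (j : ℤ) ^ 2 + B' * (j : ℤ) + C') := by
    have e : (A * (j : ℤ) ^ 2 + B * (j : ℤ) + C) - (A' * (j : ℤ) ^ 2 + B' * (j : ℤ) + C') =
        (A - A') * (j : ℤ) ^ 2 + (B - B') * (j : ℤ) + (C - C') := by ring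
    rw [e]
    exact dvd_add (dvd_add (dvd_mul_of_dvd_left hA _) (dvd_mul_of_dvd_left hB _)) hC
  exact dvd_iff_dvd_of_dvd_sub h

/-- the finite check -/
theorem lu2_fin : ∀ (a : Fin 4) (b : Fin 8) (c : Fin 4),
    gdp 2 (4 * ((a : ℕ) : ℤ) * ((c : ℕ) : ℤ) - ((b : ℕ) : ℤ) ^ 2) →
      LUs 2 (a : ℕ) ((b : ℕ) : ℤ) ((c : ℕ) : ℤ)
        (4 * ((a : ℕ) : ℤ) * ((c : ℕ) : ℤ) - ((b : ℕ) : ℤ) ^ 2) := by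
  unfold LUs gdp
  decide +kernel

theorem pf_LU2 : T_LU2 := by
  intro A B C Δ hA hΔ hg
  obtain ⟨b₀, hb⟩ : ∃ b : Fin 8, ((b : ℕ) : ℤ) = B % 8 :=
    ⟨⟨(B % 8).toNat, by omega⟩, by simp; omega⟩
  obtain ⟨c₀, hc⟩ : ∃ c : Fin 4, ((c : ℕ) : ℤ) = C % 4 :=
    ⟨⟨(C % 4).toNat, by omega⟩, by simp; omega⟩
  obtain ⟨a₀, ha⟩ : ∃ a : Fin 4, (a : ℕ) = A % 4 := ⟨⟨A % 4, by omega⟩, rfl⟩
  set Δ₀ : ℤ := 4 * ((a₀ : ℕ) : ℤ) * ((c₀ : ℕ) : ℤ) - ((b₀ : ℕ) : ℤ) ^ 2 with hΔ₀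
  obtain ⟨a', ha'⟩ : ∃ a' : ℤ, (A : ℤ) = 4 * a' + ((a₀ : ℕ) : ℤ) := ⟨(A : ℤ) / 4, by omega⟩
  obtain ⟨b', hb'⟩ : ∃ b' : ℤ, B = 8 * b' + ((b₀ : ℕ) : ℤ) := ⟨B / 8, by omega⟩
  obtain ⟨c', hc'⟩ : ∃ c' : ℤ, C = 4 * c' + ((c₀ : ℕ) : ℤ) := ⟨C / 4, by omega⟩
  have h16 : ∃ k : ℤ, Δ = 16 * k + Δ₀ := by
    refine ⟨4 * a' * c' + a' * ((c₀ : ℕ) : ℤ) + ((a₀ : ℕ) : ℤ) * c' -
      4 * b' ^ 2 - b' * ((b₀ : ℕ) : ℤ), ?_⟩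
    rw [hΔ, hΔ₀, ha', hb', hc']
    ring
  obtain ⟨k, hk⟩ := h16
  have hch : ch 2 Δ = ch 2 Δ₀ := by
    have e8 : Δ % 8 = Δ₀ % 8 := by omega
    unfold ch
    rw [if_pos rfl, if_pos rfl, e8]
  have hgd : gdp 2 Δ₀ := by
    unfold gdp at hg ⊢
    rw [if_pos rfl] at hg ⊢
    omega
  have n1 : nrt 2 (A : ℤ) B C = nrt 2 ((a₀ : ℕ) : ℤ) ((b₀ : ℕ) : ℤ) ((c₀ : ℕ) : ℤ) := by
    refine nrt_congr 2 _ _ _ _ _ _ ?_ ?_ ?_ <;> (push_cast; omega)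
  have n2 : nrt (2 ^ 2) (A : ℤ) B C =
      nrt (2 ^ 2) ((a₀ : ℕ) : ℤ) ((b₀ : ℕ) : ℤ) ((c₀ : ℕ) : ℤ) := by
    refine nrt_congr (2 ^ 2) _ _ _ _ _ _ ?_ ?_ ?_ <;> (push_cast; omega)
  have n3 : nrt 2 ((A / 2 : ℕ) : ℤ) B (((2 : ℕ) : ℤ) * C) =
      nrt 2 (((a₀ : ℕ) / 2 : ℕ) : ℤ) ((b₀ : ℕ) : ℤ) (((2 : ℕ) : ℤ) * ((c₀ : ℕ) : ℤ)) := by
    refine nrt_congr 2 _ _ _ _ _ _ ?_ ?_ ?_ <;> (push_cast; omega)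
  have d1 : (2 ∣ A) ↔ (2 ∣ (a₀ : ℕ)) := by omega
  have d2 : (2 ^ 2 ∣ A) ↔ (2 ^ 2 ∣ (a₀ : ℕ)) := by omega
  have h := lu2_fin a₀ b₀ c₀ hgd
  rw [← hΔ₀] at h
  unfold LUs at h ⊢
  rw [hch, n1, n2, n3, d1, d2]
  exact h

end Pool.Agent.H60.CF
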